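import Pool.Agent.StarN.Herglotz

/-!
MP_e32d41_an. Structure of the functions whose Hadamard product with every function of the class
`S` is zero-free in the punctured disc.
-/

namespace Pool.Agent.Results.MP_e32d41_an.ConvolutionStructure

open Complex Metric Set MeasureTheory Pool.Agent.StarN

/-- Let `F` be holomorphic in the unit disc, `F 0 = 0`, `F' 0 = 1`, with property (N). Then
`F z = z * exp (-2 ∫ log (1 - ζ̄ z) dm(ζ))` for a probability measure `m` on the unit circle, and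
for every such `m` either `F z = z / ((1 - x̄ z) (1 - ȳ z))` for some `x`, `y` on the circle, or
there is a point `a` of the circle such that `{a}` has mass `0` or `1/2`, countable sets not
containing `a` are null, and on closed sets without atoms the discs of radius `h` have mass
`O(h^(1 - ε))` for every `ε > 0`. -/
theorem result (F : ℂ → ℂ) (hd : DifferentiableOn ℂ F (ball 0 1)) (h0 : F 0 = 0)
    (h1 : deriv F 0 = 1) (hN : PropN F) :
    (∃ m : Measure 𝕊, IsProbabilityMeasure m ∧ ∀ z ∈ ball (0 : ℂ) 1, F z = starF m z) ∧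
    ∀ m : Measure 𝕊, IsProbabilityMeasure m → (∀ z ∈ ball (0 : ℂ) 1, F z = starF m z) →
      (∃ x y : 𝕊, ∀ z ∈ ball (0 : ℂ) 1,
        F z = z / ((1 - (starRingEnd ℂ) (x : ℂ) * z) * (1 - (starRingEnd ℂ) (y : ℂ) * z))) ∨
      ∃ a : 𝕊, (m {a} = 0 ∨ m {a} = 1 / 2) ∧
        (∀ S : Set 𝕊, S.Countable → a ∉ S → m S = 0) ∧
        ∀ K : Set 𝕊, IsClosed K → (∀ x ∈ K, m {x} = 0) → ∀ ε : ℝ, 0 < ε →
          ∃ C : ℝ, 0 < C ∧ ∀ x ∈ K, ∀ h : ℝ, 0 < h → h ≤ 1 →
            m.real (closedBall x h) ≤ C * h ^ (1 - ε) := by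
  refine ⟨hN.exists_measure hd h0 h1, fun m hm hF => ?_⟩
  have hpt := at_point (m := m) hN h0 h1 hd hF
  by_cases h : ∃ x : 𝕊, m.real {x} = 1
  · obtain ⟨x, hx⟩ := h
    refine Or.inl ⟨x, x, fun z hz => ?_⟩
    rw [hF z hz, starF_one hx (mem_ball_zero_iff.mp hz)]
    rfl
  push Not at h
  -- all atoms have mass one half
  have htype : ∀ x : 𝕊, m.real {x} = 1 / 2 ∨ m.real {x} = 0 := by
    intro x
    rcases hpt x with h2 | h2 | h2
    · exact absurd h2 (h x)
    · exact Or.inl h2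
    · exact Or.inr (atom_zero h2)
  by_cases h2 : ∃ x y : 𝕊, x ≠ y ∧ m.real {x} = 1 / 2 ∧ m.real {y} = 1 / 2
  · obtain ⟨x, y, hxy, hx, hy⟩ := h2
    refine Or.inl ⟨x, y, fun z hz => ?_⟩
    rw [hF z hz, starF_two hxy hx hy (mem_ball_zero_iff.mp hz)]
    rfl
  push Not at h2
  have hreal : ∀ x : 𝕊, m.real {x} = 0 → m {x} = 0 := fun x hx =>
    (measureReal_eq_zero_iff).mp hx
  have hcount : ∀ a : 𝕊, (∀ x : 𝕊, x ≠ a → m {x} = 0) →
      ∀ S : Set 𝕊, S.Countable → a ∉ S → m S = 0 := by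
    intro a ha S hS haS
    have : S = ⋃ x ∈ S, {x} := by simp
    rw [this, measure_biUnion_null_iff hS]
    intro x hx
    refine ha x ?_
    rintro rfl
    exact haS hx
  have hunif : ∀ K : Set 𝕊, IsClosed K → (∀ x ∈ K, m {x} = 0) → ∀ ε : ℝ, 0 < ε →
          ∃ C : ℝ, 0 < C ∧ ∀ x ∈ K, ∀ h : ℝ, 0 < h → h ≤ 1 →
            m.real (closedBall x h) ≤ C * h ^ (1 - ε) := by
    intro K hK hK0 ε hε
    exact unif_bound hN h0 h1 hd hF hK (fun x hx => by
      rw [measureReal_def, hK0 x hx, ENNReal.toReal_zero]) hε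
  by_cases h3 : ∃ a : 𝕊, m.real {a} = 1 / 2
  · obtain ⟨a, ha⟩ := h3
    refine Or.inr ⟨a, Or.inr ?_, hcount a (fun x hxa => ?_), hunif⟩
    · have h4 : m {a} = ENNReal.ofReal (m.real {a}) := by
        rw [ofReal_measureReal]
      rw [h4, ha]
      rw [ENNReal.ofReal_div_of_pos (by norm_num)]
      simp
    · rcases htype x with h4 | h4
      · exact absurd ha (h2 x a hxa h4)
      · exact hreal x h4
  · push Not at h3
    refine Or.inr ⟨e1, Or.inl ?_, hcount e1 (fun x _ => ?_), hunif⟩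
    · rcases htype e1 with h4 | h4
      · exact absurd h4 (h3 e1)
      · exact hreal e1 h4
    · rcases htype x with h4 | h4
      · exact absurd h4 (h3 x)
      · exact hreal x h4

end Pool.Agent.Results.MP_e32d41_an.ConvolutionStructure
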